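import Mathlib
import Pool.Agent.Results.MP_674062_gt.CounterexampleUnderCH
import Pool.Agent.Helper292.ForceCH

/-!
# It is consistent with ZFC that Split(Λ,Λ) is not additive, not even finitely additive

The continuum hypothesis is forced by the countable approximations of `Helper292.ForceCH`, and it
gives two sets of reals with Split(Λ,Λ) whose union does not have this property. The forcing
language is the one of `Pool.Agent.Helper669.Forcing`: a sentence is the set of the conditions
which force it; `CHHolds P` says that `ω₁` many subsets of `ℕ` are all subsets of `ℕ`.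
-/

set_option autoImplicit false

namespace Pool.Agent.Results.MP_674062_gt.ForcedNotAdditive

open Set Cardinal Pool.Agent.Helper292.ForceCH
open Pool.Agent.Results.MP_674062_gt.CounterexampleUnderCH (SplitLL)

/-- (1) Some forcing notion forces that `ω₁` is preserved and that the continuum hypothesis holds.
(2) The continuum hypothesis implies that there are two sets of reals with the property Split(Λ,Λ)
whose union does not have it. So neither finite nor countable additivity of Split(Λ,Λ) is provable
in ZFC. -/
theorem result :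
    (∃ (P : Type) (_ : Preorder P), Nonempty P ∧ ∀ p : P,
      p ∈ OmegaOnePreserved P ∧ p ∈ CHHolds P) ∧
    ((ℵ₁ : Cardinal.{0}) = 𝔠 →
      (∃ A B : Set ℝ, SplitLL A ∧ SplitLL B ∧ ¬ SplitLL (A ∪ B)) ∧
      ∃ X : ℕ → Set ℝ, (∀ n, SplitLL (X n)) ∧ ¬ SplitLL (⋃ n, X n)) := by
  refine ⟨?_, fun h => ?_⟩
  · obtain ⟨P, i, h1, h2⟩ := exists_forcing
    exact ⟨P, i, h1, fun p => ⟨(h2 p).1, (h2 p).2.2⟩⟩
  · obtain ⟨X, h1, h2, h3⟩ := CounterexampleUnderCH.result h.symm
    exact ⟨⟨X 0, X 1, h1 0, h1 1, h3 ▸ h2⟩, X, h1, h2⟩

end Pool.Agent.Results.MP_674062_gt.ForcedNotAdditive
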